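import Pool.Agent.Y419.Z8.CntB

/-!
# Project Z8D, part CNTS: the exponential factor
-/

set_option autoImplicit false

namespace Pool.Agent.Y419.Z8

open Finset Pool.Agent.W262.RK Pool.Agent.W307.RT Pool.Agent.TH841.PT Pool.Agent.Y723.Z8
open Pool.Agent.Y515.Z8

variable {z y Y : ℕ} {s v u : I14 → ℕ}

/-- the local factor -/
noncomputable def g10 (p : ℕ) : ℝ := (p : ℝ) / ((p : ℝ) - (10 : ℕ))

lemma g10_one {p : ℕ} (hp : 10 < p) : 1 ≤ g10 p := by
  have h1 : ((10 : ℕ) : ℝ) < p := by exact_mod_cast hp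
  unfold g10
  rw [le_div_iff₀ (by linarith)]
  push_cast
  linarith

lemma exp_le_g {a : ℝ} {p : ℕ} (ha : a ≤ 10) (hp : 10 < p) : Real.exp (a / p) ≤ g10 p := by
  have hc : ((10 : ℕ) : ℝ) < p := by exact_mod_cast hp
  have hc' : (10 : ℝ) < p := by exact_mod_cast hp
  have hp0 : (0 : ℝ) < p := by linarith
  have h1 : a / p ≤ 10 / p := by
    rw [div_le_div_iff_of_pos_right hp0]; exact ha
  have h2 : (1 : ℝ) - 10 / p ≤ Real.exp (-(10 / p)) := by
    have := Real.add_one_le_exp (-(10 / p : ℝ)); linarith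
  have h3 : 0 < (1 : ℝ) - 10 / p := by
    rw [sub_pos, div_lt_one hp0]; exact hc'
  calc Real.exp (a / p) ≤ Real.exp (10 / p) := Real.exp_le_exp.mpr h1
    _ = (Real.exp (-(10 / p)))⁻¹ := by rw [← Real.exp_neg, neg_neg]
    _ ≤ (1 - (10 : ℝ) / p)⁻¹ := inv_anti₀ h3 h2
    _ = g10 p := by
      unfold g10
      rw [one_sub_div hp0.ne', inv_div]
      push_cast
      rfl

lemma prod_sub_le {S S' : Finset ℕ} {g : ℕ → ℝ} (h : S ⊆ S') (hg : ∀ p ∈ S', 1 ≤ g p) :
    ∏ p ∈ S, g p ≤ ∏ p ∈ S', g p := by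
  rw [← prod_sdiff h]
  apply le_mul_of_one_le_left
  · exact prod_nonneg fun p hp => zero_le_one.trans (hg p (h hp))
  · calc (1 : ℝ) = ∏ p ∈ S' \ S, (1 : ℝ) := by simp
      _ ≤ _ := prod_le_prod (fun _ _ => zero_le_one) (fun p hp => hg p (mem_sdiff.1 hp).1)

/-- the number of all the forbidden classes -/
noncomputable def nt (p : ℕ) : ℝ := ((∑ j, nr j p : ℕ) : ℝ)

lemma nt_nonneg (p : ℕ) : 0 ≤ nt p := Nat.cast_nonneg _

lemma nt_le (p : ℕ) : nt p ≤ 10 := by
  unfold nt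
  exact_mod_cast nr_sum p

theorem expo8 (hz : 22 ≤ z) (hs : s ∈ Tup I14 z y) (hv : v ∈ Tup I14 z y)
    (hu : u ∈ Tup I14 y Y)
    (hinj : ∀ i l, ∀ p : ℕ, p.Prime → p ∣ s i * v i * u i → p ∣ s l * v l * u l → i = l)
    (hsv : ∀ i, (s i).Coprime (v i)) {w : ℤ} (hw : w ≠ 0) :
    Real.exp (-∑ p ∈ (PS z y).filter (fun p => ¬ p ∣ ∏ i, md8 s v u i), (nu8 w p : ℝ) / p) ≤
      Real.exp (-∑ p ∈ PS z y, nt p / p) *
        ((∏ i, ((∏ p ∈ (s i).primeFactors, g10 p) * ∏ p ∈ (v i).primeFactors, g10 p)) *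
          ∏ p ∈ w.natAbs.primeFactors.filter (fun p => z < p), g10 p) := by
  obtain ⟨m, hm⟩ : ∃ m : ℕ, m = ∏ i, md8 s v u i := ⟨_, rfl⟩
  rw [← hm]
  have hs' := (Pool.Agent.W372.RK2.mem_Tup'.1 hs).1
  have hv' := (Pool.Agent.W372.RK2.mem_Tup'.1 hv).1
  have hu' := (Pool.Agent.W372.RK2.mem_Tup'.1 hu).1
  have h1 : ∑ p ∈ PS z y, nt p / p ≤
      ∑ p ∈ (PS z y).filter (fun p => ¬ p ∣ m), (nu8 w p : ℝ) / p +
      (∑ p ∈ (PS z y).filter (fun p => p ∣ m), nt p / p +
        ∑ p ∈ (PS z y).filter (fun p : ℕ => (p : ℤ) ∣ w), nt p / p) := by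
    rw [sum_filter, sum_filter, sum_filter, ← sum_add_distrib, ← sum_add_distrib]
    refine sum_le_sum fun p hp => ?_
    have hn : 0 ≤ nt p / p := div_nonneg (nt_nonneg p) (Nat.cast_nonneg p)
    have hn2 : 0 ≤ (nu8 w p : ℝ) / p := div_nonneg (Nat.cast_nonneg _) (Nat.cast_nonneg p)
    by_cases a1 : p ∣ m
    · rw [if_neg (not_not.2 a1), if_pos a1]
      split_ifs <;> linarith
    · rw [if_pos a1, if_neg a1]
      by_cases a2 : (p : ℤ) ∣ w
      · rw [if_pos a2]
        linarith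
      · rw [if_neg a2]
        have : (nu8 w p : ℝ) = nt p := by
          unfold nu8 nt
          rw [if_neg a2]
        rw [this]
        linarith
  have hex : ∀ S : Finset ℕ, (∀ p ∈ S, 10 < p) →
      Real.exp (∑ p ∈ S, nt p / p) ≤ ∏ p ∈ S, g10 p := by
    intro S hS
    rw [Real.exp_sum]
    exact prod_le_prod (fun _ _ => (Real.exp_pos _).le) fun p hp => exp_le_g (nt_le p) (hS p hp)
  have hPS : ∀ p ∈ PS z y, 10 < p := fun p hp => by
    have := (mem_PS.1 hp).1.1
    omega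
  have h2 : Real.exp (-∑ p ∈ (PS z y).filter (fun p => ¬ p ∣ m), (nu8 w p : ℝ) / p) ≤
      Real.exp (-∑ p ∈ PS z y, nt p / p) *
        (Real.exp (∑ p ∈ (PS z y).filter (fun p => p ∣ m), nt p / p) *
          Real.exp (∑ p ∈ (PS z y).filter (fun p : ℕ => (p : ℤ) ∣ w), nt p / p)) := by
    rw [← Real.exp_add, ← Real.exp_add]
    apply Real.exp_le_exp.2
    linarith
  refine h2.trans (mul_le_mul_of_nonneg_left ?_ (Real.exp_pos _).le)
  have h3 : Real.exp (∑ p ∈ (PS z y).filter (fun p => p ∣ m), nt p / p) ≤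
      ∏ i, ((∏ p ∈ (s i).primeFactors, g10 p) * ∏ p ∈ (v i).primeFactors, g10 p) := by
    refine (hex _ fun p hp => hPS p (mem_filter.1 hp).1).trans (le_of_eq ?_)
    have e1 : (PS z y).filter (fun p => p ∣ m) =
        univ.biUnion (fun i => (s i).primeFactors ∪ (v i).primeFactors) := by
      ext p
      rw [mem_filter, mem_biUnion]
      constructor
      · rintro ⟨hP, hpm⟩
        have hp := (mem_PS.1 hP).2
        rw [hm] at hpm
        obtain ⟨i, -, hi⟩ := (hp.prime.dvd_finsetProd_iff _).1 hpm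
        refine ⟨i, mem_univ i, ?_⟩
        rw [mem_union]
        unfold md8 at hi
        rcases hp.dvd_mul.1 hi with h1 | h1
        · rcases hp.dvd_mul.1 h1 with h2 | h2
          · exact Or.inl (Nat.mem_primeFactors.2 ⟨hp, h2, dv_ne_zero (hs' i)⟩)
          · exact Or.inr (Nat.mem_primeFactors.2
              ⟨hp, hp.dvd_of_dvd_pow h2, dv_ne_zero (hv' i)⟩)
        · exfalso
          have h2 := (dv_prime (hu' i) hp h1).1
          have h3 := (mem_PS.1 hP).1.2
          omega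
      · rintro ⟨i, -, hi⟩
        rw [mem_union] at hi
        rw [hm]
        rcases hi with hi | hi
        · have hp := Nat.prime_of_mem_primeFactors hi
          have hd := Nat.dvd_of_mem_primeFactors hi
          exact ⟨mem_PS.2 ⟨dv_prime (hs' i) hp hd, hp⟩,
            ((hd.mul_right _).mul_right _).trans (dvd_prod_of_mem (md8 s v u) (mem_univ i))⟩
        · have hp := Nat.prime_of_mem_primeFactors hi
          have hd := Nat.dvd_of_mem_primeFactors hi
          exact ⟨mem_PS.2 ⟨dv_prime (hv' i) hp hd, hp⟩,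
            (((hd.pow two_ne_zero).mul_left _).mul_right _).trans
              (dvd_prod_of_mem (md8 s v u) (mem_univ i))⟩
    rw [e1, prod_biUnion]
    · refine prod_congr rfl fun i _ => ?_
      exact prod_union (hsv i).disjoint_primeFactors
    · intro i _ l _ hil
      rw [Function.onFun, disjoint_left]
      intro p hp hp'
      apply hil
      have hpp : p.Prime := by
        rcases mem_union.1 hp with h | h
        · exact Nat.prime_of_mem_primeFactors h
        · exact Nat.prime_of_mem_primeFactors h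
      refine hinj i l p hpp ?_ ?_
      · rcases mem_union.1 hp with h | h
        · exact ((Nat.dvd_of_mem_primeFactors h).mul_right _).mul_right _
        · exact ((Nat.dvd_of_mem_primeFactors h).mul_left _).mul_right _
      · rcases mem_union.1 hp' with h | h
        · exact ((Nat.dvd_of_mem_primeFactors h).mul_right _).mul_right _
        · exact ((Nat.dvd_of_mem_primeFactors h).mul_left _).mul_right _
  have h4 : Real.exp (∑ p ∈ (PS z y).filter (fun p : ℕ => (p : ℤ) ∣ w), nt p / p) ≤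
      ∏ p ∈ w.natAbs.primeFactors.filter (fun p => z < p), g10 p := by
    refine (hex _ fun p hp => hPS p (mem_filter.1 hp).1).trans ?_
    apply prod_sub_le
    · intro p hp
      rw [mem_filter] at hp ⊢
      have h5 := mem_PS.1 hp.1
      exact ⟨Nat.mem_primeFactors.2 ⟨h5.2, Int.natCast_dvd.1 hp.2, Int.natAbs_ne_zero.2 hw⟩,
        h5.1.1⟩
    · intro p hp
      rw [mem_filter] at hp
      exact g10_one (by omega)
  exact mul_le_mul h3 h4 (Real.exp_pos _).le
    (prod_nonneg fun i _ => mul_nonneg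
      (prod_nonneg fun p hp => zero_le_one.trans (g10_one (by
        have := (dv_prime (hs' i) (Nat.prime_of_mem_primeFactors hp)
          (Nat.dvd_of_mem_primeFactors hp)).1
        omega)))
      (prod_nonneg fun p hp => zero_le_one.trans (g10_one (by
        have := (dv_prime (hv' i) (Nat.prime_of_mem_primeFactors hp)
          (Nat.dvd_of_mem_primeFactors hp)).1
        omega))))

/-! ### Mertens -/

lemma nt_eq {p : ℕ} (hp : p.Prime) (h7 : 7 < p) : nt p = 7 + Jr (-1) p + 2 * Jr 2 p := by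
  have hodd : p % 2 = 1 := hp.eq_two_or_odd.resolve_left (by omega)
  have hodd' : Odd p := Nat.odd_iff.2 hodd
  have h1 : ∀ j : Fin 7, j.val < 4 → nr j p = 1 := fun j hj => by
    unfold nr
    rw [if_pos hj]
  have h4 : (nr 4 p : ℝ) = 1 + Jr (-1) p := by
    unfold Jr
    rw [jacobiSym.at_neg_one hodd', ZMod.χ₄_nat_eq_if_mod_four, if_neg (by omega)]
    have e : nr 4 p = if p % 4 = 1 then 2 else 0 := rfl
    rw [e]
    split_ifs <;> norm_num
  have h2 : ∀ j : Fin 7, nr j p = (if p % 8 = 1 ∨ p % 8 = 7 then 2 else 0) →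
      (nr j p : ℝ) = 1 + Jr 2 p := by
    intro j e
    unfold Jr
    rw [jacobiSym.at_two hodd', ZMod.χ₈_nat_eq_if_mod_eight, if_neg (by omega), e]
    split_ifs <;> norm_num
  have h5 := h2 5 rfl
  have h6 := h2 6 rfl
  unfold nt
  rw [Fin.sum_univ_seven, h1 0 (by decide), h1 1 (by decide), h1 2 (by decide),
    h1 3 (by decide)]
  push_cast
  rw [h4, h5, h6]
  ring

theorem mer8 (h : S_CHR) (z : ℕ) (hz : 22 ≤ z) : ∃ C : ℝ, 0 < C ∧ ∀ y : ℕ, 3 ≤ y → z < y →
    Real.exp (-∑ p ∈ PS z y, nt p / p) ≤ C / (Real.log y) ^ 7 := by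
  obtain ⟨C0, hC0⟩ := Pool.Agent.Helper256.KM.mertens_inv
  obtain ⟨C1, hC1⟩ := h (-1) (Or.inl rfl) z
  obtain ⟨C2, hC2⟩ := h 2 (Or.inr (Or.inl rfl)) z
  set S0 : ℝ := ∑ p ∈ (Finset.Icc 1 z).filter Nat.Prime, (1 : ℝ) / p with hS0
  refine ⟨Real.exp (7 * (C0 + S0) + C1 + 2 * C2), Real.exp_pos _, fun y hy hzy => ?_⟩
  have hm := (abs_le.1 (hC0 y hy)).1
  have hyr : (3 : ℝ) ≤ y := by exact_mod_cast hy
  have hl1 : 1 < Real.log y := by
    rw [Real.lt_log_iff_exp_lt (by linarith)]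
    have := Real.exp_one_lt_d9
    linarith
  have hsplit : ∑ p ∈ (Finset.Icc 1 y).filter Nat.Prime, (1 : ℝ) / p =
      S0 + ∑ p ∈ PS z y, (1 : ℝ) / p := by
    rw [hS0, ← sum_union]
    · congr 1
      ext p
      rw [mem_union, mem_filter, mem_filter, mem_Icc, mem_Icc, mem_PS]
      constructor
      · rintro ⟨⟨h1, h2⟩, h3⟩
        rcases Nat.lt_or_ge z p with h | h
        · exact Or.inr ⟨⟨h, h2⟩, h3⟩
        · exact Or.inl ⟨⟨h1, h⟩, h3⟩
      · rintro (⟨⟨h1, h2⟩, h3⟩ | ⟨⟨h1, h2⟩, h3⟩)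
        · exact ⟨⟨h1, by omega⟩, h3⟩
        · exact ⟨⟨by omega, h2⟩, h3⟩
    · rw [disjoint_left]
      intro p hp hp'
      rw [mem_filter, mem_Icc] at hp
      rw [mem_PS] at hp'
      omega
  have h3 : Real.log (Real.log y) - C0 - S0 ≤ ∑ p ∈ PS z y, (1 : ℝ) / p := by linarith
  have e1 : ∑ p ∈ PS z y, nt p / p = 7 * (∑ p ∈ PS z y, (1 : ℝ) / p) +
      ∑ p ∈ PS z y, Jr (-1) p / (p : ℝ) + 2 * ∑ p ∈ PS z y, Jr 2 p / (p : ℝ) := by
    rw [mul_sum, mul_sum, ← sum_add_distrib, ← sum_add_distrib]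
    refine sum_congr rfl fun p hp => ?_
    have := (mem_PS.1 hp).1.1
    rw [nt_eq (mem_PS.1 hp).2 (by omega)]
    ring
  have h5 := (abs_le.1 (hC1 y hzy)).1
  have h6 := (abs_le.1 (hC2 y hzy)).1
  have h4 : Real.log y ^ 7 = Real.exp (7 * Real.log (Real.log y)) := by
    have : (7 : ℝ) * Real.log (Real.log y) = Real.log (Real.log y ^ 7) := by
      rw [Real.log_pow]
      norm_num
    rw [this, Real.exp_log (by positivity)]
  rw [h4, ← Real.exp_sub, e1]
  apply Real.exp_le_exp.2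
  linarith

end Pool.Agent.Y419.Z8
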