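import Pool.Agent.Y723.Z8.StmD
import Pool.Agent.Y419.Z8.CntC

/-!
# Project Z8D, part CNTS: the coprime pairs in a short square with given small prime factors of the
seven forms
-/

set_option autoImplicit false

namespace Pool.Agent.Y419.Z8

open Finset Pool.Agent.W262.RK Pool.Agent.W307.RT Pool.Agent.TH841.PT Pool.Agent.Y723.Z8
open Pool.Agent.Y515.Z8

variable {z y Y : ℕ} {s v u : I14 → ℕ}

/-- the main term -/
noncomputable def RR (s v u : I14 → ℕ) : ℝ := (∏ i, gp (rr8 i) 10 (s i)) *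
  (∏ i, gp (rr8 i) 10 (v i) / v i) * ∏ i, 2 ^ (u i).primeFactors.card / (u i : ℝ)

lemma rr8_nonneg (i : I14) (p : ℕ) : 0 ≤ rr8 i p := by
  unfold rr8
  split_ifs <;> norm_num

lemma gp_nonneg8 (hz : 22 ≤ z) {d : ℕ} (hd : d ∈ (PP z y).divisors) (i : I14) :
    0 ≤ gp (rr8 i) 10 d := by
  unfold gp
  refine prod_nonneg fun p hp => div_nonneg (rr8_nonneg i p) ?_
  have := (dv_prime hd (Nat.prime_of_mem_primeFactors hp) (Nat.dvd_of_mem_primeFactors hp)).1
  have h1 : ((10 : ℕ) : ℝ) ≤ p := by exact_mod_cast (by omega : 10 ≤ p)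
  linarith

lemma RR_nonneg (hz : 22 ≤ z) (hs : s ∈ Tup I14 z y) (hv : v ∈ Tup I14 z y) : 0 ≤ RR s v u := by
  unfold RR
  have h1 : 0 ≤ ∏ i, gp (rr8 i) 10 (s i) := prod_nonneg fun i _ =>
    gp_nonneg8 hz ((Pool.Agent.W372.RK2.mem_Tup'.1 hs).1 i) i
  have h2 : 0 ≤ ∏ i, gp (rr8 i) 10 (v i) / v i := prod_nonneg fun i _ =>
    div_nonneg (gp_nonneg8 hz ((Pool.Agent.W372.RK2.mem_Tup'.1 hv).1 i) i) (Nat.cast_nonneg _)
  have h3 : 0 ≤ ∏ i, (2 : ℝ) ^ (u i).primeFactors.card / (u i : ℝ) := prod_nonneg fun i _ =>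
    div_nonneg (by positivity) (Nat.cast_nonneg _)
  exact mul_nonneg (mul_nonneg h1 h2) h3

/-- the product over the primes of one index -/
lemma prod_idx (hz : 22 ≤ z) (hzy : z < y) (hs : s ∈ Tup I14 z y) (hv : v ∈ Tup I14 z y)
    (hu : u ∈ Tup I14 y Y) {a b : ℤ} (g : Gd8 z y s v u a b) (i : I14) :
    ∏ p ∈ Pr8 s v u i, (nr i.1 p : ℝ) ≤ (∏ p ∈ (s i).primeFactors, rr8 i p) *
      (∏ p ∈ (v i).primeFactors, rr8 i p) * 2 ^ (u i).primeFactors.card := by
  have hs' := (Pool.Agent.W372.RK2.mem_Tup'.1 hs).1 i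
  have hv' := (Pool.Agent.W372.RK2.mem_Tup'.1 hv).1 i
  have hu' := (Pool.Agent.W372.RK2.mem_Tup'.1 hu).1 i
  have e1 : Pr8 s v u i = ((s i).primeFactors ∪ (v i).primeFactors) ∪ (u i).primeFactors := by
    unfold Pr8
    rw [Nat.primeFactors_mul (mul_ne_zero (dv_ne_zero hs') (dv_ne_zero hv')) (dv_ne_zero hu'),
      Nat.primeFactors_mul (dv_ne_zero hs') (dv_ne_zero hv')]
  have d1 : Disjoint (s i).primeFactors (v i).primeFactors := (cop_sv8 g i).disjoint_primeFactors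
  have d2 : Disjoint ((s i).primeFactors ∪ (v i).primeFactors) (u i).primeFactors := by
    rw [disjoint_union_left]
    exact ⟨(cop_u8 hs hu i).disjoint_primeFactors, (cop_u8 hv hu i).disjoint_primeFactors⟩
  rw [e1, prod_union d2, prod_union d1]
  have a1 : ∏ p ∈ (s i).primeFactors, (nr i.1 p : ℝ) = ∏ p ∈ (s i).primeFactors, rr8 i p := by
    refine prod_congr rfl fun p hp => ?_
    have hpp := Nat.prime_of_mem_primeFactors hp
    have f := g.fs hpp (Nat.dvd_of_mem_primeFactors hp)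
    have := (mem_PS.1 f.1).1.1
    exact rr8_eq hpp (by omega) f.2.2.2
  have a2 : ∏ p ∈ (v i).primeFactors, (nr i.1 p : ℝ) = ∏ p ∈ (v i).primeFactors, rr8 i p := by
    refine prod_congr rfl fun p hp => ?_
    have hpp := Nat.prime_of_mem_primeFactors hp
    have f := g.fv hpp (Nat.dvd_of_mem_primeFactors hp)
    have := (mem_PS.1 f.1).1.1
    exact rr8_eq hpp (by omega) f.2.2
  have a3 : ∏ p ∈ (u i).primeFactors, (nr i.1 p : ℝ) ≤ 2 ^ (u i).primeFactors.card := by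
    rw [← prod_const]
    exact prod_le_prod (fun _ _ => Nat.cast_nonneg _) fun p _ => by exact_mod_cast nr_le2 i.1 p
  rw [a1, a2]
  exact mul_le_mul_of_nonneg_left a3 (mul_nonneg (prod_nonneg fun p _ => rr8_nonneg i p)
    (prod_nonneg fun p _ => rr8_nonneg i p))

lemma key8 {d : ℕ} (hd : d ∈ (PP z y).divisors) (i : I14) :
    (∏ p ∈ d.primeFactors, rr8 i p) * ∏ p ∈ d.primeFactors, g10 p = (d : ℝ) * gp (rr8 i) 10 d := by
  unfold gp g10
  have h1 : (d : ℝ) = ∏ p ∈ d.primeFactors, (p : ℝ) := by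
    rw [← Nat.cast_prod, Nat.prod_primeFactors_of_squarefree (dv_squarefree hd)]
  conv_rhs => rw [h1]
  rw [← prod_mul_distrib, ← prod_mul_distrib]
  refine prod_congr rfl fun p _ => ?_
  ring

/-- the bound on a line in terms of the main term -/
theorem line8 (hR : S_CHR) (hz : 22 ≤ z) : ∃ (C : ℝ) (K y0 : ℕ), 0 ≤ C ∧ 1 ≤ K ∧
    ∀ (X y Y : ℕ) (s v u : I14 → ℕ), y0 ≤ y → z < y → y ^ K ≤ X → s ∈ Tup I14 z y →
    v ∈ Tup I14 z y → u ∈ Tup I14 y Y → (∏ i, s i * v i * u i) ^ 8 ≤ X →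
    ∀ (N w : ℤ), w ≠ 0 → ∀ A : Finset ℕ,
    (∀ t ∈ A, t ∈ Icc 1 X ∧ Gd8 z y s v u (N + (t : ℤ)) (w + 2 * (N + (t : ℤ)))) →
    (A.card : ℝ) ≤ C * X * RR s v u / (Real.log y) ^ 7 *
      ∏ p ∈ w.natAbs.primeFactors.filter (fun p => z < p), g10 p := by
  obtain ⟨C, K, y0, hC, hK, hSV⟩ := sv8 z hz
  obtain ⟨C1, hC1, hM⟩ := mer8 hR z hz
  refine ⟨C * C1, K, y0, by positivity, hK, ?_⟩
  intro X y Y s v u hy0 hzy hX hs hv hu hsvu N w hw A hA
  have hGw : 0 ≤ ∏ p ∈ w.natAbs.primeFactors.filter (fun p => z < p), g10 p :=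
    prod_nonneg fun p hp => zero_le_one.trans (g10_one (by
      have := (mem_filter.1 hp).2
      omega))
  have hlog : 0 ≤ (Real.log y) ^ 7 := pow_nonneg (Real.log_natCast_nonneg y) 7
  rcases A.eq_empty_or_nonempty with he | ⟨t0, ht0⟩
  · rw [he, card_empty, Nat.cast_zero]
    have := RR_nonneg (u := u) hz hs hv
    positivity
  have g := (hA t0 ht0).2
  have h1 := fib8 hC hz hSV hy0 hzy hX hs hv hu hsvu N w A hA
  have h2 := expo8 hz hs hv hu (fun i l p hp h h' => g.inj (by omega) hzy hu hp h h')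
    (fun i => cop_sv8 g i) hw
  have h3 : ∏ i, ∏ p ∈ Pr8 s v u i, (nr i.1 p : ℝ) ≤ ∏ i, ((∏ p ∈ (s i).primeFactors, rr8 i p) *
      (∏ p ∈ (v i).primeFactors, rr8 i p) * 2 ^ (u i).primeFactors.card) :=
    prod_le_prod (fun i _ => prod_nonneg fun p _ => Nat.cast_nonneg _)
      fun i _ => prod_idx hz hzy hs hv hu g i
  have h4 := hM y (by omega) hzy
  obtain ⟨m, hm⟩ : ∃ m : ℕ, m = ∏ i, md8 s v u i := ⟨_, rfl⟩
  rw [← hm] at h1 h2
  have hm1 : 1 ≤ m := by
    rw [hm]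
    exact Nat.succ_le_of_lt (prod_pos fun i _ => md_pos hs hv hu i)
  have hm0 : (0 : ℝ) < m := by exact_mod_cast hm1
  set Pn : ℝ := ∏ i, ∏ p ∈ Pr8 s v u i, (nr i.1 p : ℝ) with hPn
  set Pr : ℝ := ∏ i, ((∏ p ∈ (s i).primeFactors, rr8 i p) *
      (∏ p ∈ (v i).primeFactors, rr8 i p) * 2 ^ (u i).primeFactors.card) with hPr
  set Gs : ℝ := ∏ i, ((∏ p ∈ (s i).primeFactors, g10 p) * ∏ p ∈ (v i).primeFactors, g10 p)
    with hGs
  set Gw : ℝ := ∏ p ∈ w.natAbs.primeFactors.filter (fun p => z < p), g10 p with hGw'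
  have hPn0 : 0 ≤ Pn := prod_nonneg fun i _ => prod_nonneg fun p _ => Nat.cast_nonneg _
  have hPr0 : 0 ≤ Pr := hPn0.trans h3
  have hGs0 : 0 ≤ Gs := prod_nonneg fun i _ => mul_nonneg
      (prod_nonneg fun p hp => zero_le_one.trans (g10_one (by
        have := (dv_prime ((Pool.Agent.W372.RK2.mem_Tup'.1 hs).1 i)
          (Nat.prime_of_mem_primeFactors hp) (Nat.dvd_of_mem_primeFactors hp)).1
        omega)))
      (prod_nonneg fun p hp => zero_le_one.trans (g10_one (by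
        have := (dv_prime ((Pool.Agent.W372.RK2.mem_Tup'.1 hv).1 i)
          (Nat.prime_of_mem_primeFactors hp) (Nat.dvd_of_mem_primeFactors hp)).1
        omega)))
  have hXm : 0 ≤ C * ((X : ℝ) / m) := by positivity
  have h5 : (A.card : ℝ) ≤ Pr * (C * (X / m) * (C1 / (Real.log y) ^ 7 * (Gs * Gw))) := by
    refine h1.trans ?_
    refine mul_le_mul h3 ?_ (mul_nonneg hXm (Real.exp_pos _).le) hPr0
    refine mul_le_mul_of_nonneg_left ?_ hXm
    exact h2.trans (mul_le_mul_of_nonneg_right h4 (mul_nonneg hGs0 hGw))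
  -- the identity for the main term
  have h6 : Pr * Gs = m * RR s v u := by
    rw [hPr, hGs, hm, ← prod_mul_distrib]
    unfold RR
    rw [← prod_mul_distrib, ← prod_mul_distrib, Nat.cast_prod, ← prod_mul_distrib]
    refine prod_congr rfl fun i _ => ?_
    have hs' := (Pool.Agent.W372.RK2.mem_Tup'.1 hs).1 i
    have hv' := (Pool.Agent.W372.RK2.mem_Tup'.1 hv).1 i
    have hu' := (Pool.Agent.W372.RK2.mem_Tup'.1 hu).1 i
    have ks := key8 hs' i
    have kv := key8 hv' i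
    have n2 : (v i : ℝ) ≠ 0 := Nat.cast_ne_zero.2 (dv_ne_zero hv')
    have n3 : (u i : ℝ) ≠ 0 := Nat.cast_ne_zero.2 (dv_ne_zero hu')
    have e1 : ((∏ p ∈ (s i).primeFactors, rr8 i p) * (∏ p ∈ (v i).primeFactors, rr8 i p) *
        2 ^ (u i).primeFactors.card) * ((∏ p ∈ (s i).primeFactors, g10 p) *
          ∏ p ∈ (v i).primeFactors, g10 p) =
        (((∏ p ∈ (s i).primeFactors, rr8 i p) * ∏ p ∈ (s i).primeFactors, g10 p) *
        ((∏ p ∈ (v i).primeFactors, rr8 i p) * ∏ p ∈ (v i).primeFactors, g10 p)) *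
          2 ^ (u i).primeFactors.card := by ring
    rw [e1, ks, kv]
    unfold md8
    push_cast
    field_simp
  refine h5.trans (le_of_eq ?_)
  have e2 : Pr * (C * (X / m) * (C1 / (Real.log y) ^ 7 * (Gs * Gw))) =
      (Pr * Gs) * (C * (X / m) * (C1 / (Real.log y) ^ 7 * Gw)) := by ring
  rw [e2, h6]
  have hm0' := hm0.ne'
  field_simp

lemma one_of_w0 (hz : 22 ≤ z) (hzy : z < y) (hs : s ∈ Tup I14 z y) (hv : v ∈ Tup I14 z y)
    (hu : u ∈ Tup I14 y Y) {a : ℤ} (g : Gd8 z y s v u a (0 + 2 * a)) (i : I14) :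
    s i = 1 ∧ v i = 1 ∧ u i = 1 := by
  have h : ∀ p : ℕ, p.Prime → ¬ p ∣ s i * v i * u i := by
    intro p hp hpd
    have f := g.fm hzy hu hp hpd
    exact not_dvd_w hp (by omega) g.cop f.2.1 (dvd_zero _)
  refine ⟨?_, ?_, ?_⟩
  · by_contra hne
    obtain ⟨p, hp, hpd⟩ := Nat.exists_prime_and_dvd hne
    exact h p hp ((hpd.mul_right _).mul_right _)
  · by_contra hne
    obtain ⟨p, hp, hpd⟩ := Nat.exists_prime_and_dvd hne
    exact h p hp ((hpd.mul_left _).mul_right _)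
  · by_contra hne
    obtain ⟨p, hp, hpd⟩ := Nat.exists_prime_and_dvd hne
    exact h p hp (hpd.mul_left _)

lemma RR_one (h : ∀ i, s i = 1 ∧ v i = 1 ∧ u i = 1) : RR s v u = 1 := by
  unfold RR
  rw [prod_eq_one, prod_eq_one, prod_eq_one]
  · norm_num
  · intro i _
    rw [(h i).2.2]
    simp
  · intro i _
    rw [(h i).2.1]
    simp [gp]
  · intro i _
    rw [(h i).1]
    simp [gp]

theorem cnts_of (hR : S_CHR) : S_CNTS := by
  refine ⟨22, fun z hz B => ?_⟩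
  obtain ⟨C, K, y0, hC, hK, hL⟩ := line8 hR hz
  obtain ⟨CA, hCA, hav⟩ := Pool.Agent.W405.RS.avhs 10 z (B + 2) (by omega)
  refine ⟨C * CA * 3 + 5040, K, y0, by positivity, hK, ?_⟩
  intro N1 N2 X y Y hN1 hN2 hy0 hzy hX s hs v hv u hu hsvu
  have hy1 : 1 ≤ y := by omega
  have hyX : y ≤ X := (Nat.le_self_pow (by omega) y).trans hX
  have hX1 : 1 ≤ X := hy1.trans hyX
  have hXR : (0 : ℝ) < X := by exact_mod_cast hX1
  have hlogy : 0 < Real.log y := Real.log_pos (by exact_mod_cast (by omega : 1 < y))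
  have hlog0 : 0 < (Real.log y) ^ 7 := pow_pos hlogy _
  have hR0 : 0 ≤ RR s v u := RR_nonneg hz hs hv
  set T := (Icc 1 X ×ˢ Icc 1 X).filter (fun t : ℕ × ℕ =>
      IsCoprime (N1 + (t.1 : ℤ)) (N2 + (t.2 : ℤ)) ∧
      (∀ j, F8 (N1 + (t.1 : ℤ)) (N2 + (t.2 : ℤ)) j ≠ 0) ∧
      S1 z y (pr8 z (N1 + (t.1 : ℤ)) (N2 + (t.2 : ℤ))) = s ∧
      S2 z y (pr8 z (N1 + (t.1 : ℤ)) (N2 + (t.2 : ℤ))) = v ∧
      ∀ i, (u i : ℤ) ∣ pr8 z (N1 + (t.1 : ℤ)) (N2 + (t.2 : ℤ)) i) with hT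
  have hTg : ∀ t ∈ T, (t.1 ∈ Icc 1 X ∧ t.2 ∈ Icc 1 X) ∧
      Gd8 z y s v u (N1 + (t.1 : ℤ)) (N2 + (t.2 : ℤ)) := by
    intro t ht
    rw [hT, mem_filter, mem_product] at ht
    exact ⟨ht.1, ht.2.1, ht.2.2.1, ht.2.2.2.1, ht.2.2.2.2.1, ht.2.2.2.2.2⟩
  obtain ⟨N', hN'⟩ : ∃ N' : ℤ, N' = N2 - 2 * N1 - 2 * X := ⟨_, rfl⟩
  let kk : ℕ × ℕ → ℕ := fun t => t.2 + 2 * X - 2 * t.1
  have hkk : ∀ t ∈ T, kk t ∈ Icc 1 (3 * X) ∧
      N2 + (t.2 : ℤ) = (N' + (kk t : ℤ)) + 2 * (N1 + (t.1 : ℤ)) := by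
    intro t ht
    have h1 := (hTg t ht).1
    rw [mem_Icc, mem_Icc] at h1
    have h2 : kk t + 2 * t.1 = t.2 + 2 * X := by
      show t.2 + 2 * X - 2 * t.1 + 2 * t.1 = t.2 + 2 * X
      omega
    constructor
    · rw [mem_Icc]
      omega
    · have h3 : (kk t : ℤ) + 2 * t.1 = t.2 + 2 * X := by exact_mod_cast h2
      rw [hN']
      linarith
  obtain ⟨M, hM⟩ : ∃ M : ℝ, M = X * RR s v u / (Real.log y) ^ 7 := ⟨_, rfl⟩
  have hM0 : 0 ≤ M := by
    rw [hM]
    positivity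
  obtain ⟨G, hG⟩ : ∃ G : ℕ → ℝ, G = fun k : ℕ => ∏ p ∈ (N' + (k : ℤ)).natAbs.primeFactors.filter
    (fun p => z < p), g10 p := ⟨_, rfl⟩
  have hG0 : ∀ k, 0 ≤ G k := by
    intro k
    rw [hG]
    exact prod_nonneg fun p hp => zero_le_one.trans (g10_one (by
      have := (mem_filter.1 hp).2
      omega))
  -- the fibres
  have hfib : ∀ k ∈ Icc 1 (3 * X), ((T.filter (fun t => kk t = k)).card : ℝ) ≤
      C * M * G k + (if N' + (k : ℤ) = 0 then 5040 * X * M else 0) := by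
    intro k _
    obtain ⟨A, hA⟩ : ∃ A : Finset ℕ, A = (T.filter (fun t => kk t = k)).image Prod.fst := ⟨_, rfl⟩
    have hcard : A.card = (T.filter (fun t => kk t = k)).card := by
      rw [hA]
      apply card_image_of_injOn
      intro t ht t' ht' heq
      have ht2 := mem_filter.1 (mem_coe.1 ht)
      have ht2' := mem_filter.1 (mem_coe.1 ht')
      have h1 := (hTg t ht2.1).1
      have h1' := (hTg t' ht2'.1).1
      rw [mem_Icc, mem_Icc] at h1 h1'
      have h2 : t.2 + 2 * X - 2 * t.1 = k := ht2.2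
      have h2' : t'.2 + 2 * X - 2 * t'.1 = k := ht2'.2
      have heq' : t.1 = t'.1 := heq
      exact Prod.ext heq' (by omega)
    have hAm : ∀ t ∈ A, t ∈ Icc 1 X ∧
        Gd8 z y s v u (N1 + (t : ℤ)) ((N' + (k : ℤ)) + 2 * (N1 + (t : ℤ))) := by
      intro t ht
      rw [hA, mem_image] at ht
      obtain ⟨t', ht', rfl⟩ := ht
      rw [mem_filter] at ht'
      have g := hTg t' ht'.1
      have e := (hkk t' ht'.1).2
      rw [ht'.2] at e
      rw [← e]
      exact ⟨g.1.1, g.2⟩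
    rw [← hcard]
    by_cases hw : N' + (k : ℤ) = 0
    · rw [if_pos hw]
      rcases A.eq_empty_or_nonempty with he | ⟨t0, ht0⟩
      · rw [he, card_empty, Nat.cast_zero]
        have := hG0 k
        positivity
      · have g := (hAm t0 ht0).2
        rw [hw] at g
        have h1 := RR_one (fun i => one_of_w0 hz hzy hs hv hu g i)
        have h2 : (A.card : ℝ) ≤ X := by
          have h3 : A ⊆ Icc 1 X := fun t ht => (hAm t ht).1
          have h4 := card_le_card h3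
          rw [Nat.card_Icc] at h4
          exact_mod_cast (by omega : A.card ≤ X)
        have hlogX : (Real.log y) ^ 7 ≤ 5040 * X := by
          have h1 := Real.pow_div_factorial_le_exp (Real.log y) hlogy.le 7
          rw [Real.exp_log (by exact_mod_cast (by omega : 0 < y)), div_le_iff₀ (by positivity)] at h1
          have h2 : (y : ℝ) ≤ X := by exact_mod_cast hyX
          have h3 : ((Nat.factorial 7 : ℕ) : ℝ) = 5040 := by
            norm_num [Nat.factorial]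
          rw [h3] at h1
          linarith
        have h5 : (X : ℝ) ≤ 5040 * X * M := by
          rw [hM, h1, mul_one, mul_div_assoc', le_div_iff₀ hlog0]
          have := mul_le_mul_of_nonneg_left hlogX hXR.le
          linarith
        have h6 : 0 ≤ C * M * G k := by
          have := hG0 k
          positivity
        linarith
    · rw [if_neg hw, add_zero]
      have h1 := hL X y Y s v u hy0 hzy hX hs hv hu hsvu N1 (N' + (k : ℤ)) hw A hAm
      refine h1.trans (le_of_eq ?_)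
      rw [hM, hG]
      ring
  have hsumif : ∑ k ∈ Icc 1 (3 * X), (if N' + (k : ℤ) = 0 then 5040 * X * M else 0) ≤
      5040 * X * M := by
    rw [← sum_filter, sum_const, nsmul_eq_mul]
    have h1 : ((Icc 1 (3 * X)).filter (fun k : ℕ => N' + (k : ℤ) = 0)).card ≤ 1 := by
      refine card_le_one.2 fun a ha b hb => ?_
      have ha' := (mem_filter.1 ha).2
      have hb' := (mem_filter.1 hb).2
      omega
    have h2 : ((((Icc 1 (3 * X)).filter (fun k : ℕ => N' + (k : ℤ) = 0)).card : ℕ) : ℝ) ≤ 1 := by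
      exact_mod_cast h1
    have h3 : 0 ≤ 5040 * (X : ℝ) * M := by positivity
    calc _ ≤ 1 * (5040 * (X : ℝ) * M) := mul_le_mul_of_nonneg_right h2 h3
      _ = _ := one_mul _
  have hNb : N'.natAbs ≤ (3 * X) ^ (B + 2) := by
    have h1 : N'.natAbs ≤ N2.natAbs + 2 * N1.natAbs + 2 * X := by omega
    have h2 : X ^ B ≤ X ^ (B + 2) := Nat.pow_le_pow_right hX1 (by omega)
    have h3 : X ≤ X ^ (B + 2) := Nat.le_self_pow (by omega) X
    have h4 : 9 ≤ 3 ^ (B + 2) := by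
      have := Nat.one_le_pow B 3 (by norm_num)
      rw [pow_add]
      omega
    have h5 : (3 * X) ^ (B + 2) = 3 ^ (B + 2) * X ^ (B + 2) := mul_pow _ _ _
    rw [h5]
    have h6 : 9 * X ^ (B + 2) ≤ 3 ^ (B + 2) * X ^ (B + 2) := Nat.mul_le_mul_right _ h4
    omega
  have hGs : ∑ k ∈ Icc 1 (3 * X), G k ≤ CA * (3 * X) := by
    have h1 := hav N' (3 * X) (by omega) hNb
    rw [hG]
    refine le_trans (le_of_eq ?_) (h1.trans (le_of_eq ?_))
    · rfl
    · push_cast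
      ring
  have hTc : (T.card : ℝ) ≤ C * M * (CA * (3 * X)) + 5040 * X * M := by
    rw [card_eq_sum_card_fiberwise (f := kk) (t := Icc 1 (3 * X)) (fun t ht => (hkk t ht).1),
      Nat.cast_sum]
    refine (sum_le_sum hfib).trans ?_
    rw [sum_add_distrib, ← mul_sum]
    exact add_le_add (mul_le_mul_of_nonneg_left hGs (mul_nonneg hC hM0)) hsumif
  refine hTc.trans (le_of_eq ?_)
  rw [hM]
  unfold RR
  ring

end Pool.Agent.Y419.Z8
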