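import Pool.Agent.Y515.Z8.Loc
import Pool.Agent.TH841.PT.SVP
import Pool.Agent.W405.RS.AVHS
import Pool.Agent.W372.RK2.CNT4
import Pool.Agent.Helper256.KM.Mertens

/-!
# Project Z8D, part CNTS: local facts
-/

set_option autoImplicit false

namespace Pool.Agent.Y419.Z8

open Finset Pool.Agent.W262.RK Pool.Agent.W307.RT Pool.Agent.TH841.PT Pool.Agent.Y723.Z8
open Pool.Agent.Y515.Z8

/-- the indices -/
abbrev I14 : Type := Fin 7 × Bool

lemma pr_pow {z : ℕ} {a b : ℤ} (h0 : ∀ j, F8 a b j ≠ 0) {i : I14} {p : ℕ} (hp : p.Prime)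
    {k : ℕ} (hk : k ≠ 0) (hz : z < p) :
    (p : ℤ) ^ k ∣ pr8 z a b i ↔ (p : ℤ) ^ k ∣ F8 a b i.1 ∧ ty8 i.1 p = i.2 := by
  unfold pr8
  have e1 : ((p : ℤ) ^ k) = ((p ^ k : ℕ) : ℤ) := by push_cast; rfl
  rw [e1, Int.natCast_dvd_natCast, Int.natCast_dvd]
  by_cases hty : ty8 i.1 p = i.2
  · rw [partN_pow (Int.natAbs_ne_zero.2 (h0 _)) hp ⟨hz, hty⟩]
    exact ⟨fun h => ⟨h, hty⟩, fun h => h.1⟩
  · constructor
    · intro h
      exact absurd (partN_of hp ((dvd_pow_self p hk).trans h)).2 hty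
    · intro h
      exact absurd h.2 hty

lemma dvd_S1' {z y : ℕ} {f : I14 → ℤ} {i : I14} {p : ℕ} (hp : p.Prime) :
    p ∣ S1 z y f i ↔ p ∈ PS z y ∧ (p : ℤ) ∣ f i ∧ ¬ (p : ℤ) ^ 2 ∣ f i := by
  unfold S1
  constructor
  · intro h
    obtain ⟨q, hq, hpq⟩ := (hp.prime.dvd_finsetProd_iff _).1 h
    rw [mem_filter] at hq
    rw [(Nat.prime_dvd_prime_iff_eq hp (mem_PS.1 hq.1).2).1 hpq]
    exact hq
  · intro h
    exact dvd_prod_of_mem _ (mem_filter.2 h)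

lemma dvd_S2' {z y : ℕ} {f : I14 → ℤ} {i : I14} {p : ℕ} (hp : p.Prime) :
    p ∣ S2 z y f i ↔ p ∈ PS z y ∧ (p : ℤ) ^ 2 ∣ f i := by
  unfold S2
  constructor
  · intro h
    obtain ⟨q, hq, hpq⟩ := (hp.prime.dvd_finsetProd_iff _).1 h
    rw [mem_filter] at hq
    rw [(Nat.prime_dvd_prime_iff_eq hp (mem_PS.1 hq.1).2).1 hpq]
    exact hq
  · intro h
    exact dvd_prod_of_mem _ (mem_filter.2 h)

/-- the counted pairs -/
structure Gd8 (z y : ℕ) (s v u : I14 → ℕ) (a b : ℤ) : Prop where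
  cop : IsCoprime a b
  nz : ∀ j, F8 a b j ≠ 0
  hs : S1 z y (pr8 z a b) = s
  hv : S2 z y (pr8 z a b) = v
  hu : ∀ i, (u i : ℤ) ∣ pr8 z a b i

variable {z y Y : ℕ} {s v u : I14 → ℕ} {a b : ℤ}

lemma Gd8.fs (g : Gd8 z y s v u a b) {p : ℕ} (hp : p.Prime) {i : I14} (h : p ∣ s i) :
    p ∈ PS z y ∧ (p : ℤ) ∣ F8 a b i.1 ∧ ¬ (p : ℤ) ^ 2 ∣ F8 a b i.1 ∧ ty8 i.1 p = i.2 := by
  rw [← g.hs] at h
  obtain ⟨h1, h2, h3⟩ := (dvd_S1' hp).1 h
  have hz := (mem_PS.1 h1).1.1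
  have h2' : (p : ℤ) ^ 1 ∣ pr8 z a b i := by rwa [pow_one]
  rw [pr_pow g.nz hp one_ne_zero hz, pow_one] at h2'
  rw [pr_pow g.nz hp two_ne_zero hz] at h3
  exact ⟨h1, h2'.1, fun h => h3 ⟨h, h2'.2⟩, h2'.2⟩

lemma Gd8.fv (g : Gd8 z y s v u a b) {p : ℕ} (hp : p.Prime) {i : I14} (h : p ∣ v i) :
    p ∈ PS z y ∧ (p : ℤ) ^ 2 ∣ F8 a b i.1 ∧ ty8 i.1 p = i.2 := by
  rw [← g.hv] at h
  obtain ⟨h1, h2⟩ := (dvd_S2' hp).1 h
  have hz := (mem_PS.1 h1).1.1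
  rw [pr_pow g.nz hp two_ne_zero hz] at h2
  exact ⟨h1, h2.1, h2.2⟩

lemma Gd8.fu (g : Gd8 z y s v u a b) {p : ℕ} (hp : p.Prime) (hz : z < p) {i : I14} (h : p ∣ u i) :
    (p : ℤ) ∣ F8 a b i.1 ∧ ty8 i.1 p = i.2 := by
  have h2 : (p : ℤ) ^ 1 ∣ pr8 z a b i := by
    rw [pow_one]
    exact (Int.natCast_dvd_natCast.2 h).trans (g.hu i)
  rwa [pr_pow g.nz hp one_ne_zero hz, pow_one] at h2

lemma Gd8.all (g : Gd8 z y s v u a b) {p : ℕ} (hp : p ∈ PS z y) {j : Fin 7}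
    (h : (p : ℤ) ∣ F8 a b j) : p ∣ s (j, ty8 j p) ∨ p ∣ v (j, ty8 j p) := by
  have hpp := (mem_PS.1 hp).2
  have hz := (mem_PS.1 hp).1.1
  by_cases h2 : (p : ℤ) ^ 2 ∣ F8 a b j
  · right
    rw [← g.hv, dvd_S2' hpp]
    exact ⟨hp, (pr_pow g.nz hpp two_ne_zero hz).2 ⟨h2, rfl⟩⟩
  · left
    rw [← g.hs, dvd_S1' hpp]
    refine ⟨hp, ?_, fun h3 => h2 ((pr_pow g.nz hpp two_ne_zero hz).1 h3).1⟩
    have := (pr_pow (i := (j, ty8 j p)) g.nz hpp one_ne_zero hz).2 ⟨by rwa [pow_one], rfl⟩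
    rwa [pow_one] at this

/-- a prime of the data divides the value -/
lemma Gd8.fm (g : Gd8 z y s v u a b) (hzy : z < y) (hu : u ∈ Tup I14 y Y) {p : ℕ} (hp : p.Prime)
    {i : I14} (h : p ∣ s i * v i * u i) : z < p ∧ (p : ℤ) ∣ F8 a b i.1 ∧ ty8 i.1 p = i.2 := by
  rcases hp.dvd_mul.1 h with h1 | h1
  · rcases hp.dvd_mul.1 h1 with h2 | h2
    · have := g.fs hp h2
      exact ⟨(mem_PS.1 this.1).1.1, this.2.1, this.2.2.2⟩
    · have := g.fv hp h2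
      exact ⟨(mem_PS.1 this.1).1.1, (dvd_pow_self (p : ℤ) two_ne_zero).trans this.2.1, this.2.2⟩
  · have hz : z < p := by
      have := (dv_prime ((Pool.Agent.W372.RK2.mem_Tup'.1 hu).1 i) hp h1).1
      omega
    have := g.fu hp hz h1
    exact ⟨hz, this.1, this.2⟩

lemma Gd8.inj (g : Gd8 z y s v u a b) (h7 : 7 ≤ z) (hzy : z < y) (hu : u ∈ Tup I14 y Y) {p : ℕ}
    (hp : p.Prime) {i l : I14} (h : p ∣ s i * v i * u i) (h' : p ∣ s l * v l * u l) : i = l := by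
  have f := g.fm hzy hu hp h
  have f' := g.fm hzy hu hp h'
  have e := un_int hp (by omega) g.cop f.2.1 f'.2.1
  refine Prod.ext e ?_
  rw [← f.2.2, ← f'.2.2, e]

/-! ### Lifting of the roots -/

/-- the difference quotient -/
def Gr {R : Type*} [CommRing R] (x x' w : R) (j : Fin 7) : R :=
  ![1, 2, -1, 3, 5 * (x + x') + 4 * w, -(7 * (x + x') + 6 * w), (x + x') - 2 * w] j

lemma Fr_sub {R : Type*} [CommRing R] (x x' w : R) (j : Fin 7) :
    Fr x (w + 2 * x) j - Fr x' (w + 2 * x') j = (x - x') * Gr x x' w j := by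
  fin_cases j <;> simp [Fr, Gr] <;> ring

lemma F8_eq (a b : ℤ) (j : Fin 7) : F8 a b j = Fr a b j := by
  fin_cases j <;> simp [F8, Fr]

lemma Gr_ne {p : ℕ} [hp : Fact p.Prime] (h7 : 7 < p) {x w : ZMod p} (hw : w ≠ 0) {j : Fin 7}
    (h : Fr x (w + 2 * x) j = 0) : Gr x x w j ≠ 0 := by
  have n2 : (2 : ZMod p) ≠ 0 := by simpa using two_ne h7 2 (by norm_num) (by norm_num)
  have n3 : (3 : ZMod p) ≠ 0 := by simpa using two_ne h7 3 (by norm_num) (by norm_num)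
  intro hG
  have k2 : ∀ y : ZMod p, y ^ 2 = 0 → y = 0 := fun y hy => (pow_eq_zero_iff two_ne_zero).1 hy
  fin_cases j <;> simp [Gr, Fr] at h hG
  · exact n2 hG
  · exact n3 hG
  · apply hw
    apply k2
    have e0 : 2 * (5 * x + 2 * w) = 0 := by linear_combination hG
    have e1 := (mul_eq_zero.1 e0).resolve_left n2
    linear_combination 5 * h - (5 * x + 2 * w) * e1
  · apply hw
    apply k2
    have e0 : 2 * (7 * x + 3 * w) = 0 := by linear_combination (-1 : ZMod p) * hG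
    have e1 := (mul_eq_zero.1 e0).resolve_left n2
    have e2 : 2 * w ^ 2 = 0 := by linear_combination (7 * x + 3 * w) * e1 + 7 * h
    exact (mul_eq_zero.1 e2).resolve_left n2
  · apply hw
    apply k2
    have e0 : 2 * (x - w) = 0 := by linear_combination hG
    have e1 := (mul_eq_zero.1 e0).resolve_left n2
    have e2 : 2 * w ^ 2 = 0 := by linear_combination (x - w) * e1 - h
    exact (mul_eq_zero.1 e2).resolve_left n2

/-- a simple root lifts uniquely -/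
lemma lift8 {p : ℕ} (hp : p.Prime) (h7 : 7 < p) {w a a' : ℤ} (hw : ¬ (p : ℤ) ∣ w) {j : Fin 7}
    (h1 : (p : ℤ) ∣ a - a') (h2 : (p : ℤ) ^ 2 ∣ F8 a (w + 2 * a) j)
    (h3 : (p : ℤ) ^ 2 ∣ F8 a' (w + 2 * a') j) : (p : ℤ) ^ 2 ∣ a - a' := by
  have _ : Fact p.Prime := ⟨hp⟩
  have hw' : (w : ZMod p) ≠ 0 := by rwa [Ne, ZMod.intCast_zmod_eq_zero_iff_dvd]
  have h4 : (p : ℤ) ^ 2 ∣ (a - a') * Gr a a' w j := by
    rw [← Fr_sub, ← F8_eq, ← F8_eq]
    exact dvd_sub h2 h3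
  have hcast : ((Gr a a' w j : ℤ) : ZMod p) = Gr (a : ZMod p) (a' : ZMod p) (w : ZMod p) j := by
    fin_cases j <;> simp [Gr]
  have ha : (a : ZMod p) = (a' : ZMod p) := by
    rw [← sub_eq_zero]
    rw [← ZMod.intCast_zmod_eq_zero_iff_dvd] at h1
    push_cast at h1
    exact h1
  have h5 : ¬ (p : ℤ) ∣ Gr a a' w j := by
    rw [← ZMod.intCast_zmod_eq_zero_iff_dvd, hcast, ← ha]
    apply Gr_ne h7 hw'
    rw [← dvd_F8_iff]
    exact (dvd_pow_self (p : ℤ) two_ne_zero).trans h2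
  have hcop : IsCoprime ((p : ℤ) ^ 2) (Gr a a' w j) := by
    apply IsCoprime.pow_left
    rw [(Nat.prime_iff_prime_int.mp hp).coprime_iff_not_dvd]
    exact h5
  exact hcop.dvd_of_dvd_mul_right h4

/-! ### The numbers of the roots -/

lemma nr_le2 (j : Fin 7) (p : ℕ) : nr j p ≤ 2 := by
  unfold nr
  split_ifs <;> norm_num

lemma nr_sum (p : ℕ) : ∑ j, nr j p ≤ 10 := by
  rw [Fin.sum_univ_seven]
  have h : ∀ j : Fin 7, j.val < 4 → nr j p = 1 := fun j hj => by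
    unfold nr
    rw [if_pos hj]
  rw [h 0 (by decide), h 1 (by decide), h 2 (by decide), h 3 (by decide)]
  have h4 := nr_le2 4 p
  have h5 := nr_le2 5 p
  have h6 := nr_le2 6 p
  omega

lemma rr8_eq {p : ℕ} (hp : p.Prime) (h7 : 7 < p) {i : I14} (h : ty8 i.1 p = i.2) :
    (nr i.1 p : ℝ) = rr8 i p := by
  obtain ⟨j, e⟩ := i
  have hodd : p % 2 = 1 := hp.eq_two_or_odd.resolve_left (by omega)
  simp only at h
  subst h
  have h8 : p % 8 = 1 ∨ p % 8 = 3 ∨ p % 8 = 5 ∨ p % 8 = 7 := by omega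
  unfold nr rr8 ty8
  fin_cases j <;> simp
  · rcases h8 with h8 | h8 | h8 | h8
    · have h4 : p % 4 = 1 := by omega
      simp [h8, h4]
    · have h4 : p % 4 = 3 := by omega
      simp [h8, h4]
    · have h4 : p % 4 = 1 := by omega
      simp [h8, h4]
    · have h4 : p % 4 = 3 := by omega
      simp [h8, h4]
  · rcases h8 with h8 | h8 | h8 | h8
    · have h4 : p % 4 = 1 := by omega
      simp [h8, h4]
    · have h4 : p % 4 = 3 := by omega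
      simp [h8, h4]
    · have h4 : p % 4 = 1 := by omega
      simp [h8, h4]
    · have h4 : p % 4 = 3 := by omega
      simp [h8, h4]

end Pool.Agent.Y419.Z8
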