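import Pool.Agent.Y419.Z8.CntA

/-!
# Project Z8D, part CNTS: the sieve on a line
-/

set_option autoImplicit false

namespace Pool.Agent.Y419.Z8

open Finset Pool.Agent.W262.RK Pool.Agent.W307.RT Pool.Agent.TH841.PT Pool.Agent.Y723.Z8
open Pool.Agent.Y515.Z8

variable {z y Y : ℕ} {s v u : I14 → ℕ}

/-- the primes of the index `i` -/
def Pr8 (s v u : I14 → ℕ) (i : I14) : Finset ℕ := (s i * v i * u i).primeFactors

/-- the modulus -/
def md8 (s v u : I14 → ℕ) (i : I14) : ℕ := s i * v i ^ 2 * u i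

/-- the number of the forbidden classes -/
noncomputable def nu8 (w : ℤ) (p : ℕ) : ℕ := if (p : ℤ) ∣ w then 0 else ∑ j, nr j p

lemma F8_mod {p : ℕ} {w a a' : ℤ} (h : (p : ℤ) ∣ a - a') (j : Fin 7) :
    (p : ℤ) ∣ F8 a (w + 2 * a) j ↔ (p : ℤ) ∣ F8 a' (w + 2 * a') j := by
  have ha : (a : ZMod p) = (a' : ZMod p) := by
    rw [← sub_eq_zero]
    rw [← ZMod.intCast_zmod_eq_zero_iff_dvd] at h
    push_cast at h
    exact h
  rw [dvd_F8_iff, dvd_F8_iff, ha]

lemma mod_sub (t p : ℕ) (N : ℤ) : (p : ℤ) ∣ (((t % p : ℕ) : ℤ) - (-N)) - ((t : ℤ) - (-N)) := by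
  have h : (((t % p : ℕ) : ℤ) - (-N)) - ((t : ℤ) - (-N)) = -(p * ((t : ℤ) / p)) := by
    push_cast
    have := Int.emod_add_mul_ediv (t : ℤ) p
    linarith
  rw [h]
  exact (dvd_neg).2 (dvd_mul_right _ _)

lemma md_pos (hs : s ∈ Tup I14 z y) (hv : v ∈ Tup I14 z y) (hu : u ∈ Tup I14 y Y) (i : I14) :
    1 ≤ md8 s v u i := by
  have h1 := dv_pos ((Pool.Agent.W372.RK2.mem_Tup'.1 hs).1 i)
  have h2 := dv_pos ((Pool.Agent.W372.RK2.mem_Tup'.1 hv).1 i)
  have h3 := dv_pos ((Pool.Agent.W372.RK2.mem_Tup'.1 hu).1 i)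
  unfold md8
  exact Nat.succ_le_of_lt (by positivity)

lemma svu_ne (hs : s ∈ Tup I14 z y) (hv : v ∈ Tup I14 z y) (hu : u ∈ Tup I14 y Y) (i : I14) :
    s i * v i * u i ≠ 0 :=
  mul_ne_zero (mul_ne_zero (dv_ne_zero ((Pool.Agent.W372.RK2.mem_Tup'.1 hs).1 i))
    (dv_ne_zero ((Pool.Agent.W372.RK2.mem_Tup'.1 hv).1 i)))
    (dv_ne_zero ((Pool.Agent.W372.RK2.mem_Tup'.1 hu).1 i))

lemma dvd_md {p : ℕ} (hp : p.Prime) {i : I14} (h : p ∣ md8 s v u i) : p ∣ s i * v i * u i := by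
  unfold md8 at h
  rcases hp.dvd_mul.1 h with h1 | h1
  · rcases hp.dvd_mul.1 h1 with h2 | h2
    · exact (h2.mul_right _).mul_right _
    · exact ((hp.dvd_of_dvd_pow h2).mul_left _).mul_right _
  · exact h1.mul_left _

lemma cop_sv8 {a b : ℤ} (g : Gd8 z y s v u a b) (i : I14) : (s i).Coprime (v i) := by
  apply Nat.coprime_of_dvd
  intro p hp h1 h2
  exact (g.fs hp h1).2.2.1 (g.fv hp h2).2.1

lemma cop_u8 {d : I14 → ℕ} (hd : d ∈ Tup I14 z y) (hu : u ∈ Tup I14 y Y) (i : I14) :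
    (d i).Coprime (u i) := by
  apply Nat.coprime_of_dvd
  intro p hp h1 h2
  have e1 := (dv_prime ((Pool.Agent.W372.RK2.mem_Tup'.1 hd).1 i) hp h1).2
  have e2 := (dv_prime ((Pool.Agent.W372.RK2.mem_Tup'.1 hu).1 i) hp h2).1
  omega

/-- the counted numbers with the same residues are congruent -/
lemma congr8 (hz : 7 ≤ z) (hzy : z < y) (hs : s ∈ Tup I14 z y) (hv : v ∈ Tup I14 z y)
    (hu : u ∈ Tup I14 y Y) {w a a' : ℤ} (g : Gd8 z y s v u a (w + 2 * a))
    (g' : Gd8 z y s v u a' (w + 2 * a'))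
    (h : ∀ i, ∀ p : ℕ, p.Prime → p ∣ s i * v i * u i → (p : ℤ) ∣ a - a') :
    ((∏ i, md8 s v u i : ℕ) : ℤ) ∣ a - a' := by
  rw [Nat.cast_prod]
  refine Finset.prod_dvd_of_coprime ?_ ?_
  · intro i _ l _ hil
    rw [Function.onFun, Nat.isCoprime_iff_coprime]
    apply Nat.coprime_of_dvd
    intro p hp h1 h2
    exact hil (g.inj hz hzy hu hp (dvd_md hp h1) (dvd_md hp h2))
  · intro i _
    have hs' := (Pool.Agent.W372.RK2.mem_Tup'.1 hs).1 i
    have hv' := (Pool.Agent.W372.RK2.mem_Tup'.1 hv).1 i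
    have hu' := (Pool.Agent.W372.RK2.mem_Tup'.1 hu).1 i
    have e1 : (s i : ℤ) ∣ a - a' := by
      have := Pool.Agent.W372.RK2.sq_pow_dvd (dv_squarefree hs') 1 (a - a') (by
        intro p hp hpu
        rw [pow_one]
        exact h i p hp ((hpu.mul_right _).mul_right _))
      rwa [pow_one] at this
    have e3 : (u i : ℤ) ∣ a - a' := by
      have := Pool.Agent.W372.RK2.sq_pow_dvd (dv_squarefree hu') 1 (a - a') (by
        intro p hp hpu
        rw [pow_one]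
        exact h i p hp (hpu.mul_left _))
      rwa [pow_one] at this
    have e2 : (v i : ℤ) ^ 2 ∣ a - a' := by
      apply Pool.Agent.W372.RK2.sq_pow_dvd (dv_squarefree hv') 2
      intro p hp hpv
      have f := g.fv hp hpv
      have f' := g'.fv hp hpv
      have hzp := (mem_PS.1 f.1).1.1
      have h7 : 7 < p := by omega
      exact lift8 hp h7 (not_dvd_w hp h7 g.cop ((dvd_pow_self (p : ℤ) two_ne_zero).trans f.2.1))
        (h i p hp ((hpv.mul_left _).mul_right _)) f.2.1 f'.2.1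
    unfold md8
    push_cast
    have c1 : IsCoprime (s i : ℤ) ((v i : ℤ) ^ 2) :=
      (Nat.isCoprime_iff_coprime.2 (cop_sv8 g i)).pow_right
    have c2 : IsCoprime ((s i : ℤ) * (v i : ℤ) ^ 2) (u i : ℤ) := by
      apply IsCoprime.mul_left
      · exact Nat.isCoprime_iff_coprime.2 (cop_u8 hs hu i)
      · exact (Nat.isCoprime_iff_coprime.2 (cop_u8 hv hu i)).pow_left
    exact c2.mul_dvd (c1.mul_dvd e1 e2) e3

/-- membership, for every decidability instance -/
lemma mem_flt {α : Type*} {s : Finset α} {p : α → Prop} {inst : DecidablePred p} {a : α}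
    (h1 : a ∈ s) (h2 : p a) : a ∈ @Finset.filter α p inst s := Finset.mem_filter.2 ⟨h1, h2⟩

/-- the sieve bound in the form used here -/
def SV8 (z : ℕ) (C : ℝ) (K y0 : ℕ) : Prop := ∀ X y : ℕ, y0 ≤ y → z < y → y ^ K ≤ X →
  ∀ (Z : ℕ → ℕ → Prop) (ν : ℕ → ℕ),
  (∀ p ∈ PS z y, ∀ n, Z p n ↔ Z p (n % p)) →
  (∀ p ∈ PS z y, ((@Finset.filter ℕ (fun n => Z p n) (Classical.decPred _) (range p))).card = ν p ∧
    ν p ≤ 10) →
  ∀ m r : ℕ, 1 ≤ m → m ^ 4 ≤ X → ∀ A : Finset ℕ,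
    (∀ t ∈ A, t ∈ Icc 1 X ∧ t ≡ r [MOD m] ∧ ∀ p ∈ PS z y, ¬ p ∣ m → ¬ Z p t) →
    (A.card : ℝ) ≤
      C * (X / m) * Real.exp (-∑ p ∈ (PS z y).filter (fun p => ¬ p ∣ m), (ν p : ℝ) / p)

lemma sv8 (z : ℕ) (hz : 22 ≤ z) : ∃ (C : ℝ) (K y0 : ℕ), 0 ≤ C ∧ 1 ≤ K ∧ SV8 z C K y0 := by
  obtain ⟨C, K, y0, hC, hK, h⟩ := Pool.Agent.TH841.PT.SVPf.svp 10 z (by omega)
  refine ⟨C, K, y0, hC, hK, ?_⟩
  intro X y hy0 hzy hX Z ν hZ hν m r hm hm4 A hA
  refine le_trans ?_ (h X y hy0 hzy hX Z ν hZ (fun p hp => ?_) m r hm hm4)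
  · rw [Nat.cast_le]
    exact card_le_card fun t ht => mem_flt (hA t ht).1 (hA t ht).2
  · have := hν p hp
    convert this

/-- the counting bound on a line -/
theorem fib8 {C : ℝ} {K y0 : ℕ} (hC : 0 ≤ C) (hz : 22 ≤ z) (hSV : SV8 z C K y0)
    {X : ℕ} (hy0 : y0 ≤ y) (hzy : z < y) (hX : y ^ K ≤ X) (hs : s ∈ Tup I14 z y)
    (hv : v ∈ Tup I14 z y) (hu : u ∈ Tup I14 y Y) (hsvu : (∏ i, s i * v i * u i) ^ 8 ≤ X)
    (N w : ℤ) (A : Finset ℕ)
    (hA : ∀ t ∈ A, t ∈ Icc 1 X ∧ Gd8 z y s v u (N + (t : ℤ)) (w + 2 * (N + (t : ℤ)))) :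
    (A.card : ℝ) ≤ (∏ i, ∏ p ∈ Pr8 s v u i, (nr i.1 p : ℝ)) *
      (C * (X / (∏ i, md8 s v u i : ℕ)) * Real.exp (-∑ p ∈ (PS z y).filter
        (fun p => ¬ p ∣ ∏ i, md8 s v u i), (nu8 w p : ℝ) / p)) := by
  obtain ⟨m, hm⟩ : ∃ m : ℕ, m = ∏ i, md8 s v u i := ⟨_, rfl⟩
  rw [← hm]
  have hm1 : 1 ≤ m := by
    rw [hm]
    exact Nat.succ_le_of_lt (prod_pos fun i _ => md_pos hs hv hu i)
  have hm4 : m ^ 4 ≤ X := by
    refine le_trans ?_ hsvu
    have h1 : m ≤ (∏ i, s i * v i * u i) ^ 2 := by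
      rw [hm, ← prod_pow]
      apply prod_le_prod'
      intro i _
      have h1 := dv_pos ((Pool.Agent.W372.RK2.mem_Tup'.1 hs).1 i)
      have h3 := dv_pos ((Pool.Agent.W372.RK2.mem_Tup'.1 hu).1 i)
      unfold md8
      calc s i * v i ^ 2 * u i ≤ (s i * s i) * v i ^ 2 * (u i * u i) := by
            apply Nat.mul_le_mul
            · apply Nat.mul_le_mul_right
              nlinarith
            · nlinarith
        _ = (s i * v i * u i) ^ 2 := by ring
    calc m ^ 4 ≤ ((∏ i, s i * v i * u i) ^ 2) ^ 4 := Nat.pow_le_pow_left h1 4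
      _ = (∏ i, s i * v i * u i) ^ 8 := by rw [← pow_mul]
  set B : ℝ := C * (X / m) * Real.exp (-∑ p ∈ (PS z y).filter (fun p => ¬ p ∣ m),
    (nu8 w p : ℝ) / p) with hB
  have hB0 : 0 ≤ B := by positivity
  rcases A.eq_empty_or_nonempty with he | ⟨t0, ht0⟩
  · rw [he, card_empty, Nat.cast_zero]
    exact mul_nonneg (prod_nonneg fun i _ => prod_nonneg fun p _ => Nat.cast_nonneg _) hB0
  -- the primes of the data do not divide `w`
  have hpw : ∀ i, ∀ p ∈ Pr8 s v u i, p.Prime ∧ 7 < p ∧ ¬ (p : ℤ) ∣ w := by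
    intro i p hp
    have hpp := Nat.prime_of_mem_primeFactors hp
    have g := (hA t0 ht0).2
    have f := g.fm hzy hu hpp (Nat.dvd_of_mem_primeFactors hp)
    have h7 : 7 < p := by omega
    exact ⟨hpp, h7, not_dvd_w hpp h7 g.cop f.2.1⟩
  let Phi : ℕ → ((i : I14) → (p : Pr8 s v u i) → ℕ) := fun t i p => t % (p : ℕ)
  have hPhi : ∀ t r : ℕ, Phi t = Phi r → ∀ i, ∀ p ∈ Pr8 s v u i, t % p = r % p :=
    fun t r h i p hp => congrFun (congrFun h i) ⟨p, hp⟩
  let Tg : Finset ((i : I14) → (p : Pr8 s v u i) → ℕ) :=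
    Fintype.piFinset (fun i => Fintype.piFinset (fun p : Pr8 s v u i => Rt w (-N) i.1 p))
  have hTg : (Tg.card : ℝ) = ∏ i, ∏ p ∈ Pr8 s v u i, (nr i.1 p : ℝ) := by
    have h1 : Tg.card = ∏ i, ∏ p ∈ Pr8 s v u i, nr i.1 p := by
      rw [Fintype.card_piFinset]
      refine prod_congr rfl fun i _ => ?_
      rw [Fintype.card_piFinset, prod_coe_sort (Pr8 s v u i) (fun p => (Rt w (-N) i.1 p).card)]
      refine prod_congr rfl fun p hp => ?_
      obtain ⟨a1, a2, a3⟩ := hpw i p hp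
      exact card_Rt a1 a2 a3 (-N) i.1
    rw [h1]
    push_cast
    rfl
  have hmaps : ∀ t ∈ A, Phi t ∈ Tg := by
    intro t ht
    rw [Fintype.mem_piFinset]
    intro i
    rw [Fintype.mem_piFinset]
    intro p
    have hpp := Nat.prime_of_mem_primeFactors p.2
    have g := (hA t ht).2
    have f := g.fm hzy hu hpp (Nat.dvd_of_mem_primeFactors p.2)
    unfold Rt
    rw [mem_filter, mem_range]
    refine ⟨Nat.mod_lt _ hpp.pos, ?_⟩
    rw [F8_mod (mod_sub t p N)]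
    have e1 : (t : ℤ) - -N = N + t := by ring
    rw [e1]
    exact f.2.1
  have hfib : ∀ φ, ((A.filter (fun t : ℕ => Phi t = φ)).card : ℝ) ≤ B := by
    intro φ
    rcases (A.filter (fun t : ℕ => Phi t = φ)).eq_empty_or_nonempty with he | ⟨r, hr⟩
    · rw [he, card_empty, Nat.cast_zero]
      exact hB0
    · refine hSV X y hy0 hzy hX (fun p n => ¬ (p : ℤ) ∣ w ∧ ∃ j, (p : ℤ) ∣
        F8 ((n : ℤ) - (-N)) (w + 2 * ((n : ℤ) - (-N))) j) (nu8 w) ?_ ?_ m r hm1 hm4 _ ?_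
      · intro p hp n
        refine and_congr_right fun _ => exists_congr fun j => ?_
        exact (F8_mod (mod_sub n p N) j).symm
      · intro p hp
        have hpp := (mem_PS.1 hp).2
        have h7 : 7 < p := by
          have := (mem_PS.1 hp).1.1
          omega
        unfold nu8
        by_cases hw : (p : ℤ) ∣ w
        · rw [if_pos hw]
          refine ⟨?_, by omega⟩
          rw [card_eq_zero]
          ext n
          simp [hw]
        · rw [if_neg hw]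
          refine ⟨?_, nr_sum p⟩
          rw [← card_all hpp h7 hw (-N)]
          congr 1
          ext n
          simp [hw]
      · intro t ht
        rw [mem_filter] at ht hr
        have g := (hA t ht.1).2
        have g' := (hA r hr.1).2
        have heq : Phi t = Phi r := ht.2.trans hr.2.symm
        refine ⟨(hA t ht.1).1, ?_, ?_⟩
        · have h1 := congr8 (by omega) hzy hs hv hu g g' (by
            intro i p hp hpd
            have h2 : t % p = r % p := hPhi t r heq i p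
              (Nat.mem_primeFactors.2 ⟨hp, hpd, svu_ne hs hv hu i⟩)
            have h3 : (t : ℤ) ≡ r [ZMOD p] := by
              have h4 : t ≡ r [MOD p] := h2
              exact (Int.natCast_modEq_iff).2 h4
            have h5 := h3.symm.dvd
            have h6 : N + (t : ℤ) - (N + (r : ℤ)) = t - r := by ring
            rw [h6]
            exact h5)
          rw [← hm] at h1
          have h6 : N + (t : ℤ) - (N + (r : ℤ)) = t - r := by ring
          rw [h6] at h1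
          exact ((Nat.modEq_iff_dvd.2 h1)).symm
        · rintro p hpP hpm ⟨-, j, hj⟩
          apply hpm
          have e1 : (t : ℤ) - -N = N + t := by ring
          rw [e1] at hj
          rw [hm]
          refine Dvd.dvd.trans ?_ (dvd_prod_of_mem _ (mem_univ (j, ty8 j p)))
          unfold md8
          rcases g.all hpP hj with h1 | h1
          · exact (h1.mul_right _).mul_right _
          · exact ((h1.pow two_ne_zero).mul_left _).mul_right _
  rw [← hTg, card_eq_sum_card_fiberwise (f := Phi) (t := Tg) hmaps, Nat.cast_sum]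
  refine (sum_le_sum fun φ _ => hfib φ).trans ?_
  rw [sum_const, nsmul_eq_mul]

end Pool.Agent.Y419.Z8
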